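import Mathlib
import Pool.Agent.H27.RFMDefs

/-!
The relative Fontaine-Mazur statement for the symplectic sheaves with infinite geometric monodromy,
with a general coefficient field (so that the printed definition stays short). Definitions only.
-/

open CategoryTheory Limits AlgebraicGeometry

noncomputable section

namespace Pool.Agent.H26.PT

open Pool.Agent.H27.RFM

/-- The pullback along `g : Z ⟶ X` of every semisimple symplectic lisse `Λ`-sheaf on `X` whose
monodromy on `Z` is infinite is of geometric origin. Symplectic: with a nondegenerate alternating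
form that is invariant under the monodromy. -/
def PullbacksGeometricSp (ℓ : ℕ) [Fact ℓ.Prime] (Λ : Type) [Field Λ] [Algebra ℚ_[ℓ] Λ]
    {Ω : Type} [Field Ω] {Z X : Scheme.{0}} (z : Spec (CommRingCat.of Ω) ⟶ Z) (g : Z ⟶ X) :
    Prop :=
  ∀ (V : Type) [AddCommGroup V] [Module Λ V] [Module ℚ_[ℓ] V] [IsScalarTower ℚ_[ℓ] Λ V]
    (ρ : Representation Λ (galAt (z ≫ g)) V),
    IsLisse ℓ Λ (z ≫ g) ρ → ρ.IsSemisimpleRepresentation →
    (∃ b : V →ₗ[Λ] V →ₗ[Λ] Λ, b.IsAlt ∧ b.Nondegenerate ∧ ∀ σ v w, b (ρ σ v) (ρ σ w) = b v w) →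
    (Set.range (ρ.comp (Subgroup.inclusion (galAt_le_comp z g)))).Infinite →
    IsOfGeometricOrigin ℓ Λ z (ρ.comp (Subgroup.inclusion (galAt_le_comp z g)))

/-- The relative Fontaine-Mazur statement for the symplectic lisse `ℚ_ℓ`-sheaves with infinite
geometric monodromy on a scheme `X` over a ring `𝔹`, and a field `kbar` over `𝔹`: every semisimple
symplectic lisse `ℚ_ℓ`-sheaf on `X` whose pullback to `X ×_𝔹 kbar` has infinite monodromy becomes
of geometric origin on `X ×_𝔹 kbar`. -/
def RelFMSp (ℓ : ℕ) [Fact ℓ.Prime] {𝔹 : Type} [CommRing 𝔹] (kbar : Type) [Field kbar]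
    [Algebra 𝔹 kbar] {X : Scheme.{0}} (f : X ⟶ Spec (CommRingCat.of 𝔹)) : Prop :=
  ∀ (Ω : Type) [Field Ω]
    (z : Spec (CommRingCat.of Ω) ⟶
      pullback f (Spec.map (CommRingCat.ofHom (algebraMap 𝔹 kbar)))),
    IsGeometricGenericPoint
      (z ≫ pullback.fst f (Spec.map (CommRingCat.ofHom (algebraMap 𝔹 kbar)))) →
    PullbacksGeometricSp ℓ ℚ_[ℓ] z
      (pullback.fst f (Spec.map (CommRingCat.ofHom (algebraMap 𝔹 kbar))))

end Pool.Agent.H26.PT
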