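import Mathlib
import Pool.Agent.H24.PF.Iso
import Pool.Agent.H82.TW.Fin
import Pool.Agent.H27.RepT
import Pool.Agent.H27.Zero
import Pool.Agent.H80.PT.SpG

/-!
The relative Fontaine-Mazur statement for the symplectic sheaves with infinite geometric monodromy:
a representation `ρ` on `V` is a quotient of the symplectic representation on `V × V^*`.
-/

open CategoryTheory Limits AlgebraicGeometry Topology

noncomputable section

namespace Pool.Agent.H26.PT

open Pool.Agent.H27.RFM Pool.Agent.H24.PF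

section rep

variable {F G V W : Type*} [Field F] [Group G] [AddCommGroup V] [Module F V]
  [AddCommGroup W] [Module F W]

lemma sym_dual_semisimple [FiniteDimensional F V] (ρ : Representation F G V)
    (h : ρ.IsSemisimpleRepresentation) : ρ.dual.IsSemisimpleRepresentation := by
  rw [semisimple_iff] at h ⊢
  intro M hM
  obtain ⟨C, hC, hC'⟩ := h M.dualCoannihilator (by
    rintro _ ⟨g, rfl⟩ v hv
    rw [Submodule.mem_dualCoannihilator] at hv ⊢
    intro φ hφ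
    have h1 := hv _ (hM _ ⟨g⁻¹, rfl⟩ φ hφ)
    rw [Representation.dual_apply, inv_inv] at h1
    exact h1)
  refine ⟨C.dualAnnihilator, ?_, ?_⟩
  · rintro _ ⟨g, rfl⟩ φ hφ
    rw [Submodule.mem_dualAnnihilator] at hφ ⊢
    intro w hw
    exact hφ _ (hC _ ⟨g⁻¹, rfl⟩ w hw)
  · have h1 := Subspace.isCompl_dualAnnihilator hC'
    rwa [Subspace.dualCoannihilator_dualAnnihilator_eq] at h1

lemma sym_prod_semisimple (ρ : Representation F G V) (σ : Representation F G W)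
    (h : ρ.IsSemisimpleRepresentation) (h' : σ.IsSemisimpleRepresentation) :
    (ρ.prod σ).IsSemisimpleRepresentation := by
  rw [semisimple_iff] at h h' ⊢
  intro M hM
  have hM' : ∀ g (p : V × W), p ∈ M → (ρ g p.1, σ g p.2) ∈ M := fun g p hp =>
    hM _ ⟨g, rfl⟩ p hp
  obtain ⟨C, hC, hC'⟩ := h (M.map (LinearMap.fst F V W)) (by
    rintro _ ⟨g, rfl⟩ v hv
    obtain ⟨p, hp, rfl⟩ := Submodule.mem_map.1 hv
    exact Submodule.mem_map.2 ⟨_, hM' g p hp, rfl⟩)
  obtain ⟨D, hD, hD'⟩ := h' (M.comap (LinearMap.inr F V W)) (by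
    rintro _ ⟨g, rfl⟩ w hw
    have h1 := hM' g _ (Submodule.mem_comap.1 hw)
    rw [Submodule.mem_comap]
    simpa using h1)
  refine ⟨C.prod D, ?_, ?_, ?_⟩
  · rintro _ ⟨g, rfl⟩ p hp
    exact ⟨hC _ ⟨g, rfl⟩ _ hp.1, hD _ ⟨g, rfl⟩ _ hp.2⟩
  · rw [Submodule.disjoint_def]
    rintro ⟨v, w⟩ h1 h2
    have e1 : v = 0 := Submodule.disjoint_def.1 hC'.disjoint v
      (Submodule.mem_map.2 ⟨(v, w), h1, rfl⟩) h2.1
    subst e1
    have e2 : w = 0 := Submodule.disjoint_def.1 hD'.disjoint w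
      (Submodule.mem_comap.2 (by simpa using h1)) h2.2
    rw [e2]
    rfl
  · rw [codisjoint_iff, eq_top_iff]
    rintro ⟨v, w⟩ -
    obtain ⟨v1, hv1, v2, hv2, rfl⟩ := Submodule.mem_sup.1
      (show v ∈ M.map (LinearMap.fst F V W) ⊔ C by rw [codisjoint_iff.1 hC'.codisjoint]; trivial)
    obtain ⟨⟨v1', w'⟩, hp, rfl⟩ := Submodule.mem_map.1 hv1
    obtain ⟨w1, hw1, w2, hw2, hw⟩ := Submodule.mem_sup.1
      (show w - w' ∈ M.comap (LinearMap.inr F V W) ⊔ D by
        rw [codisjoint_iff.1 hD'.codisjoint]; trivial)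
    have e : (v1' + v2, w) = ((v1', w') + (0, w1)) + (v2, w2) := by
      ext
      · simp
      · simp only [Prod.snd_add]
        rw [add_assoc, hw]
        abel
    simp only [LinearMap.fst_apply]
    rw [e]
    exact Submodule.mem_sup.2 ⟨_, M.add_mem hp (Submodule.mem_comap.1 hw1), _, ⟨hv2, hw2⟩, rfl⟩

/-- The symplectic form on `V × V^*`. -/
def symForm (F V : Type*) [Field F] [AddCommGroup V] [Module F V] :
    (V × Module.Dual F V) →ₗ[F] (V × Module.Dual F V) →ₗ[F] F :=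
  LinearMap.mk₂ F (fun p q => q.2 p.1 - p.2 q.1)
    (by intro a b c; simp only [Prod.fst_add, Prod.snd_add, map_add, LinearMap.add_apply]; ring)
    (by intro a b c; simp only [Prod.smul_fst, Prod.smul_snd, map_smul, LinearMap.smul_apply,
      smul_eq_mul]; ring)
    (by intro a b c; simp only [Prod.fst_add, Prod.snd_add, map_add, LinearMap.add_apply]; ring)
    (by intro a b c; simp only [Prod.smul_fst, Prod.smul_snd, map_smul, LinearMap.smul_apply,
      smul_eq_mul]; ring)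

lemma symForm_apply (p q : V × Module.Dual F V) : symForm F V p q = q.2 p.1 - p.2 q.1 := rfl

lemma symForm_isAlt : (symForm F V).IsAlt := by
  intro p
  rw [symForm_apply, sub_self]

lemma symForm_nondegenerate : (symForm F V).Nondegenerate := by
  have h1 : (symForm F V).SeparatingLeft := by
    rintro ⟨v, φ⟩ h
    have hv : v = 0 := by
      rw [← Module.forall_dual_apply_eq_zero_iff F v]
      intro ψ
      have := h (0, ψ)
      rw [symForm_apply] at this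
      simpa using this
    have hφ : φ = 0 := by
      ext w
      have := h (w, 0)
      rw [symForm_apply] at this
      simpa using this
    rw [hv, hφ]
    rfl
  refine ⟨h1, ?_⟩
  intro q hq
  apply h1
  intro p
  have := hq p
  rw [symForm_apply] at this ⊢
  rw [← neg_sub, this, neg_zero]

lemma symForm_inv (ρ : Representation F G V) (g : G) (p q : V × Module.Dual F V) :
    symForm F V ((ρ.prod ρ.dual) g p) ((ρ.prod ρ.dual) g q) = symForm F V p q := by
  have hg : ∀ v, ρ g⁻¹ (ρ g v) = v := by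
    intro v
    rw [← Module.End.mul_apply, ← map_mul, inv_mul_cancel, map_one, Module.End.one_apply]
  rw [symForm_apply, symForm_apply]
  change q.2 (ρ g⁻¹ (ρ g p.1)) - p.2 (ρ g⁻¹ (ρ g q.1)) = _
  rw [hg, hg]

end rep

section lisse

variable (ℓ : ℕ) [Fact ℓ.Prime] {Ω : Type} [Field Ω]

lemma sym_isLisse {X : Scheme.{0}} {x : Spec (CommRingCat.of Ω) ⟶ X} {V : Type} [AddCommGroup V]
    [Module ℚ_[ℓ] V] {ρ : Representation ℚ_[ℓ] (galAt x) V} (h : IsLisse ℓ ℚ_[ℓ] x ρ) :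
    IsLisse ℓ ℚ_[ℓ] x (ρ.prod ρ.dual) := by
  classical
  have hfin := h.finite
  refine ⟨inferInstance, ?_, ?_⟩
  · rintro ⟨v, φ⟩ Φ
    -- the second component is evaluation at a vector
    obtain ⟨w, hw⟩ := (Module.evalEquiv ℚ_[ℓ] V).surjective
      (Φ.comp (LinearMap.inr ℚ_[ℓ] V (Module.Dual ℚ_[ℓ] V)))
    have hw' : ∀ ψ : Module.Dual ℚ_[ℓ] V, Φ (0, ψ) = ψ w := by
      intro ψ
      have := congrArg (fun f => f ψ) hw
      simpa using this.symm
    have e : (fun g : galAt x => Φ ((ρ.prod ρ.dual) g (v, φ))) =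
        fun g => (Φ.comp (LinearMap.inl ℚ_[ℓ] V (Module.Dual ℚ_[ℓ] V))) (ρ g v) +
          φ (ρ g⁻¹ w) := by
      funext g
      have e1 : (ρ.prod ρ.dual) g (v, φ) = (ρ g v, 0) + (0, ρ.dual g φ) := by
        ext <;> simp
      rw [e1, map_add, hw']
      rfl
    have h1 := h.continuous v (Φ.comp (LinearMap.inl ℚ_[ℓ] V (Module.Dual ℚ_[ℓ] V)))
    have h2 : @Continuous (galAt x) ℚ_[ℓ] (TopologicalSpace.induced Subtype.val (autTop Ω)) _
        (fun g => φ (ρ g⁻¹ w)) := by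
      have h3 := h.continuous w φ
      rw [continuous_iff_finset] at h3 ⊢
      intro g N hN
      obtain ⟨S, hS⟩ := h3 g⁻¹ N hN
      refine ⟨S.image (fun s => ((g⁻¹ : galAt x) : Ω ≃+* Ω) s), fun g' hg' => hS g'⁻¹ ?_⟩
      intro s hs
      have h4 := hg' _ (Finset.mem_image_of_mem _ hs)
      have h5 : (g : Ω ≃+* Ω) (((g⁻¹ : galAt x) : Ω ≃+* Ω) s) = s :=
        RingEquiv.apply_symm_apply (g : Ω ≃+* Ω) _
      rw [h5] at h4
      have h6 : ((g'⁻¹ : galAt x) : Ω ≃+* Ω) ((g' : Ω ≃+* Ω) (((g⁻¹ : galAt x) : Ω ≃+* Ω) s)) =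
          ((g⁻¹ : galAt x) : Ω ≃+* Ω) s :=
        RingEquiv.symm_apply_apply (g' : Ω ≃+* Ω) _
      rw [← h6, h4]
    rw [e]
    exact @Continuous.add ℚ_[ℓ] _ _ _ (galAt x)
      (TopologicalSpace.induced Subtype.val (autTop Ω)) _ _ h1 h2
  · intro g hg
    have h1 := h.unramified g hg
    have h2 : ρ g⁻¹ = 1 := by
      have : ρ g⁻¹ * ρ g = 1 := by rw [← map_mul, inv_mul_cancel, map_one]
      rwa [h1, mul_one] at this
    refine LinearMap.ext fun p => Prod.ext ?_ ?_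
    · change ρ g p.1 = p.1
      rw [h1, Module.End.one_apply]
    · change p.2 ∘ₗ ρ g⁻¹ = p.2
      rw [h2]
      rfl

lemma sym_geometric (z : Σ (Z : Scheme.{0}), (Spec (CommRingCat.of Ω) ⟶ Z)) {V : Type}
    [AddCommGroup V] [Module ℚ_[ℓ] V] (G : Type) [Group G] (φ : galAt z.2 →* G)
    (ρ : Representation ℚ_[ℓ] G V)
    (h : IsOfGeometricOrigin ℓ ℚ_[ℓ] z.2 ((ρ.prod ρ.dual).comp φ : Representation _ _ _)) :
    IsOfGeometricOrigin ℓ ℚ_[ℓ] z.2 (ρ.comp φ : Representation _ _ _) := by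
  obtain ⟨U, u, hu, Y, π, hπ, hπ', i, W, a, b, hp, M, q, hq, hM⟩ := h
  refine ⟨U, u, hu, Y, π, hπ, hπ', i, W, a, b, hp, M,
    (LinearMap.fst ℚ_[ℓ] V (Module.Dual ℚ_[ℓ] V)).comp q, ?_, ?_⟩
  · intro v
    obtain ⟨m, hm⟩ := hq (v, 0)
    exact ⟨m, by rw [LinearMap.comp_apply, hm]; rfl⟩
  · intro g m
    obtain ⟨h1, h2⟩ := hM g m
    refine ⟨h1, ?_⟩
    rw [LinearMap.comp_apply, h2]
    rfl

end lisse

lemma sym_infinite {F G H V : Type*} [Field F] [Group G] [Group H] [AddCommGroup V] [Module F V]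
    (φ : H →* G) (ρ : Representation F G V) (h : (Set.range (ρ.comp φ)).Infinite) :
    (Set.range ((ρ.prod ρ.dual).comp φ)).Infinite := by
  intro hfin
  apply h
  refine (hfin.image (fun T : Module.End F (V × Module.Dual F V) =>
    (LinearMap.fst F V (Module.Dual F V)).comp (T.comp (LinearMap.inl F V
      (Module.Dual F V))))).subset ?_
  rintro _ ⟨g, rfl⟩
  exact ⟨_, ⟨g, rfl⟩, rfl⟩

theorem pullbacksGeometric_of_sp (ℓ : ℕ) [Fact ℓ.Prime] {Ω : Type} [Field Ω] {Z X : Scheme.{0}}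
    (z : Spec (CommRingCat.of Ω) ⟶ Z) (g : Z ⟶ X) (hz : IsGeometricGenericPoint (z ≫ g))
    (h : PullbacksGeometricSp ℓ ℚ_[ℓ] z g) : PullbacksGeometric ℓ ℚ_[ℓ] z g := by
  intro V _ i₁ i₂ hst ρ hρ hss
  obtain rfl : i₂ = i₁ := Iso_module_eq i₁ i₂ hst
  by_cases hfin : (Set.range (ρ.comp (Subgroup.inclusion (galAt_le_comp z g)))).Finite
  · exact Pool.Agent.H82.TW.pullback_geometric_of_finite_range ℓ z g hz ρ hρ hfin
  · have hfd := hρ.finite
    have h1 := h (V × Module.Dual ℚ_[ℓ] V) (ρ.prod ρ.dual) (sym_isLisse ℓ hρ)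
      (sym_prod_semisimple ρ ρ.dual hss (sym_dual_semisimple ρ hss))
      ⟨symForm ℚ_[ℓ] V, symForm_isAlt, symForm_nondegenerate, symForm_inv ρ⟩
      (sym_infinite _ ρ hfin)
    exact sym_geometric ℓ ⟨_, z⟩ _ _ ρ h1

theorem pullbacksGeometricSp_of (ℓ : ℕ) [Fact ℓ.Prime] {Ω : Type} [Field Ω] {Z X : Scheme.{0}}
    (z : Spec (CommRingCat.of Ω) ⟶ Z) (g : Z ⟶ X) (h : PullbacksGeometric ℓ ℚ_[ℓ] z g) :
    PullbacksGeometricSp ℓ ℚ_[ℓ] z g := by
  intro V _ i₁ i₂ hst ρ hρ hss _ _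
  obtain rfl : i₂ = i₁ := Iso_module_eq i₁ i₂ hst
  exact h V ρ hρ hss

theorem relFMOver_iff_sp (ℓ : ℕ) [Fact ℓ.Prime] {𝔹 : Type} [CommRing 𝔹] (kbar : Type)
    [Field kbar] [Algebra 𝔹 kbar] {X : Scheme.{0}} (f : X ⟶ Spec (CommRingCat.of 𝔹)) :
    RelFMOver ℓ kbar f ↔ RelFMSp ℓ kbar f :=
  ⟨fun h Ω _ z hz => pullbacksGeometricSp_of ℓ z _ (h Ω z hz),
    fun h Ω _ z hz => pullbacksGeometric_of_sp ℓ z _ hz (h Ω z hz)⟩

end Pool.Agent.H26.PT
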